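import Mathlib

/-!
# MP_3f07b9_an: orbits of the iterated correlation map stay away from the all-ones matrix

For a correlation matrix `A` other than the all-ones matrix, take a smallest entry `m = A i j < 1`.
The rows `i` and `j` take the values `1, m` and `m, 1` at the positions `i, j`, and all their entries
lie in `[m, 1]`.  Hence their correlation is at most `1 - 4 / n`.
-/

set_option autoImplicit false

namespace Pool.Agent.Results.MP_3f07b9_an.NoApproach

open Matrix Filter

attribute [local instance] Matrix.normedAddCommGroup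

/-- The mean of a vector of `ℝⁿ`. -/
noncomputable def mean {n : ℕ} (x : Fin n → ℝ) : ℝ := (∑ k, x k) / n

/-- The Pearson correlation of two vectors of `ℝⁿ`. -/
noncomputable def corr {n : ℕ} (x y : Fin n → ℝ) : ℝ :=
  (∑ k, (x k - mean x) * (y k - mean y)) /
    Real.sqrt ((∑ k, (x k - mean x) ^ 2) * ∑ k, (y k - mean y) ^ 2)

/-- The correlation map: the matrix of the correlations of the rows. -/
noncomputable def corrMap {n : ℕ} (A : Matrix (Fin n) (Fin n) ℝ) : Matrix (Fin n) (Fin n) ℝ :=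
  Matrix.of fun i j => corr (A i) (A j)

/-- Correlation matrices (the elliptope): positive semidefinite with unit diagonal. -/
def IsCorrelationMatrix {n : ℕ} (A : Matrix (Fin n) (Fin n) ℝ) : Prop :=
  A.PosSemidef ∧ ∀ i, A i i = 1

/-- The all-ones matrix. -/
def allOnes (n : ℕ) : Matrix (Fin n) (Fin n) ℝ := Matrix.of fun _ _ => 1

theorem sum_sq_sub {n : ℕ} (hn : 0 < n) (x : Fin n → ℝ) (c : ℝ) :
    ∑ k, (x k - c) ^ 2 = ∑ k, (x k - mean x) ^ 2 + n * (mean x - c) ^ 2 := by
  have hn' : (n : ℝ) ≠ 0 := by positivity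
  have hs : ∑ k, (x k - mean x) = 0 := by
    rw [Finset.sum_sub_distrib, Finset.sum_const, Finset.card_univ, Fintype.card_fin, nsmul_eq_mul,
      mean]
    field_simp
    ring
  have h : ∀ k, (x k - c) ^ 2
      = (x k - mean x) ^ 2 + 2 * (mean x - c) * (x k - mean x) + (mean x - c) ^ 2 := by
    intro k; ring
  simp_rw [h]
  rw [Finset.sum_add_distrib, Finset.sum_add_distrib, ← Finset.mul_sum, hs, Finset.sum_const,
    Finset.card_univ, Fintype.card_fin, nsmul_eq_mul]
  ring

theorem two_sq (u v : ℝ) : (u - v) ^ 2 ≤ 2 * (u ^ 2 + v ^ 2) := by nlinarith [sq_nonneg (u + v)]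

/-- The quadratic estimate behind the theorem. -/
theorem corr_le {n : ℕ} (x y : Fin n → ℝ) (m : ℝ) (hm : m < 1) (i j : Fin n) (hij : i ≠ j)
    (hxi : x i = 1) (hxj : x j = m) (hyi : y i = m) (hyj : y j = 1)
    (hx : ∀ k, m ≤ x k ∧ x k ≤ 1) (hy : ∀ k, m ≤ y k ∧ y k ≤ 1) :
    corr x y ≤ 1 - 4 / n := by
  have hn : 0 < n := Fin.pos i
  have hn' : (0 : ℝ) < n := by exact_mod_cast hn
  have bound : ∀ z : Fin n → ℝ, (∀ k, m ≤ z k ∧ z k ≤ 1) →
      ∑ k, (z k - mean z) ^ 2 ≤ n * ((1 - m) / 2) ^ 2 := by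
    intro z hz
    have h1 := sum_sq_sub hn z ((1 + m) / 2)
    have h2 : ∑ k, (z k - (1 + m) / 2) ^ 2 ≤ ∑ _k : Fin n, ((1 - m) / 2) ^ 2 := by
      refine Finset.sum_le_sum fun k _ => ?_
      have := hz k
      nlinarith [this.1, this.2]
    rw [Finset.sum_const, Finset.card_univ, Fintype.card_fin, nsmul_eq_mul] at h2
    have h3 : 0 ≤ (n : ℝ) * (mean z - (1 + m) / 2) ^ 2 := by positivity
    linarith
  have pos : ∀ z : Fin n → ℝ, z i ≠ z j → 0 < ∑ k, (z k - mean z) ^ 2 := by
    intro z hz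
    by_contra hcon
    have h0 : ∑ k, (z k - mean z) ^ 2 = 0 :=
      le_antisymm (not_lt.1 hcon) (Finset.sum_nonneg fun k _ => sq_nonneg _)
    rw [Finset.sum_eq_zero_iff_of_nonneg (fun k _ => sq_nonneg _)] at h0
    have hi := h0 i (Finset.mem_univ _)
    have hj := h0 j (Finset.mem_univ _)
    rw [sq_eq_zero_iff] at hi hj
    exact hz (by linarith)
  set S := ∑ k, (x k - mean x) ^ 2 with hS
  set T := ∑ k, (y k - mean y) ^ 2 with hT
  have hSp : 0 < S := pos x (by rw [hxi, hxj]; exact hm.ne')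
  have hTp : 0 < T := pos y (by rw [hyi, hyj]; exact hm.ne)
  have hSb : S ≤ n * ((1 - m) / 2) ^ 2 := bound x hx
  have hTb : T ≤ n * ((1 - m) / 2) ^ 2 := bound y hy
  set s := Real.sqrt S with hs
  set t := Real.sqrt T with ht
  have hsp : 0 < s := Real.sqrt_pos.2 hSp
  have htp : 0 < t := Real.sqrt_pos.2 hTp
  have hs2 : s ^ 2 = S := Real.sq_sqrt hSp.le
  have ht2 : t ^ 2 = T := Real.sq_sqrt hTp.le
  set r := Real.sqrt n with hr
  have hrp : 0 < r := Real.sqrt_pos.2 hn'
  have hr2 : r ^ 2 = n := Real.sq_sqrt hn'.le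
  have hδ : 0 < 1 - m := by linarith
  have hsr : s ≤ r * ((1 - m) / 2) := by
    refine abs_le_of_sq_le_sq' ?_ (by positivity) |>.2
    rw [mul_pow, hr2, hs2]; exact hSb
  have htr : t ≤ r * ((1 - m) / 2) := by
    refine abs_le_of_sq_le_sq' ?_ (by positivity) |>.2
    rw [mul_pow, hr2, ht2]; exact hTb
  -- the normalised rows
  let a : Fin n → ℝ := fun k => (x k - mean x) / s
  let b : Fin n → ℝ := fun k => (y k - mean y) / t
  have hcorr : corr x y = ∑ k, a k * b k := by
    rw [corr, ← hS, ← hT, Real.sqrt_mul hSp.le, ← hs, ← ht, Finset.sum_div]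
    refine Finset.sum_congr rfl fun k _ => ?_
    simp only [a, b]
    field_simp
  have ha : ∑ k, a k ^ 2 = 1 := by
    simp only [a, div_pow]
    rw [← Finset.sum_div, ← hS, hs2]
    exact div_self hSp.ne'
  have hb : ∑ k, b k ^ 2 = 1 := by
    simp only [b, div_pow]
    rw [← Finset.sum_div, ← hT, ht2]
    exact div_self hTp.ne'
  have hab : ∑ k, (a k - b k) ^ 2 = 2 - 2 * ∑ k, a k * b k := by
    have h : ∀ k, (a k - b k) ^ 2 = a k ^ 2 - 2 * (a k * b k) + b k ^ 2 := by intro k; ring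
    simp_rw [h]
    rw [Finset.sum_add_distrib, Finset.sum_sub_distrib, ha, hb, ← Finset.mul_sum]
    ring
  have htwo : (a i - b i) ^ 2 + (a j - b j) ^ 2 ≤ ∑ k, (a k - b k) ^ 2 := by
    rw [← Finset.sum_pair (f := fun k => (a k - b k) ^ 2) hij]
    exact Finset.sum_le_sum_of_subset_of_nonneg (Finset.subset_univ _) fun k _ _ => sq_nonneg _
  have haij : 2 / r ≤ a i - a j := by
    have h1 : a i - a j = (1 - m) / s := by
      simp only [a, hxi, hxj]; ring
    rw [h1, div_le_div_iff₀ hrp hsp]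
    nlinarith
  have hbij : 2 / r ≤ b j - b i := by
    have h1 : b j - b i = (1 - m) / t := by
      simp only [b, hyi, hyj]; ring
    rw [h1, div_le_div_iff₀ hrp htp]
    nlinarith
  have hrr : (2 / r) ^ 2 = 4 / n := by rw [div_pow, hr2]; norm_num
  have hpos : 0 < 2 / r := by positivity
  have h8 : 8 / n ≤ (a i - b i) ^ 2 + (a j - b j) ^ 2 := by
    have h1 : 4 / r ≤ (a i - b i) - (a j - b j) := by
      have : 4 / r = 2 / r + 2 / r := by ring
      rw [this]; linarith
    have h2 : (4 / r) ^ 2 ≤ ((a i - b i) - (a j - b j)) ^ 2 := by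
      apply pow_le_pow_left₀ (by positivity) h1
    have h3 : (4 / r) ^ 2 = 16 / n := by rw [div_pow, hr2]; norm_num
    have h4 : ((a i - b i) - (a j - b j)) ^ 2 ≤ 2 * ((a i - b i) ^ 2 + (a j - b j) ^ 2) :=
      two_sq _ _
    have h5 : (16 : ℝ) / n = 2 * (8 / n) := by ring
    linarith
  rw [hcorr]
  have : (8 : ℝ) / n = 2 * (4 / n) := by ring
  linarith

theorem corrMap_symm {n : ℕ} (A : Matrix (Fin n) (Fin n) ℝ) (i j : Fin n) :
    corrMap A i j = corrMap A j i := by
  simp only [corrMap, Matrix.of_apply, corr]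
  congr 1
  · exact Finset.sum_congr rfl fun k _ => mul_comm _ _
  · rw [mul_comm]

theorem entry_le {n : ℕ} {A : Matrix (Fin n) (Fin n) ℝ} (hA : IsCorrelationMatrix A) (i j : Fin n) :
    A i j ≤ 1 := by
  have h := hA.1.dotProduct_mulVec_nonneg (Pi.single i 1 - Pi.single j 1)
  have hsym : A j i = A i j := by
    have := hA.1.isHermitian.apply i j
    simpa using this
  simp [Matrix.mulVec_sub, sub_dotProduct, dotProduct_sub, hA.2, hsym] at h
  linarith

theorem symm {n : ℕ} {A : Matrix (Fin n) (Fin n) ℝ} (hA : IsCorrelationMatrix A) (i j : Fin n) :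
    A j i = A i j := by
  have := hA.1.isHermitian.apply i j
  simpa using this

/-- A correlation matrix with a constant row is the all-ones matrix. -/
theorem row_nonconst {n : ℕ} {A : Matrix (Fin n) (Fin n) ℝ} (hA : IsCorrelationMatrix A)
    (hne : A ≠ allOnes n) (i : Fin n) : ¬ ∃ c, ∀ k, A i k = c := by
  rintro ⟨c, hc⟩
  apply hne
  have hc1 : c = 1 := by rw [← hc i, hA.2]
  ext j k
  have h1 : A i j = 1 := by rw [hc, hc1]
  have h2 : A j i = 1 := by rw [symm hA i j, h1]
  have hz : star (Pi.single i 1 - Pi.single j 1 : Fin n → ℝ) ⬝ᵥ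
      (A *ᵥ (Pi.single i 1 - Pi.single j 1)) = 0 := by
    simp [Matrix.mulVec_sub, sub_dotProduct, dotProduct_sub, hA.2, h1, h2]
  rw [hA.1.dotProduct_mulVec_zero_iff] at hz
  have h3 := congrFun hz k
  simp [Matrix.mulVec_sub] at h3
  rw [allOnes, Matrix.of_apply, ← symm hA j k]
  have h4 : A k i = 1 := by rw [symm hA i k, hc, hc1]
  linarith

theorem corrMap_isCorrelation {n : ℕ} {A : Matrix (Fin n) (Fin n) ℝ} (hA : IsCorrelationMatrix A)
    (hne : A ≠ allOnes n) : IsCorrelationMatrix (corrMap A) := by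
  have hpos : ∀ i, 0 < ∑ k, (A i k - mean (A i)) ^ 2 := by
    intro i
    by_contra hcon
    have h0 : ∑ k, (A i k - mean (A i)) ^ 2 = 0 :=
      le_antisymm (not_lt.1 hcon) (Finset.sum_nonneg fun k _ => sq_nonneg _)
    rw [Finset.sum_eq_zero_iff_of_nonneg (fun k _ => sq_nonneg _)] at h0
    exact row_nonconst hA hne i ⟨mean (A i), fun k => by
      have := h0 k (Finset.mem_univ _)
      rw [sq_eq_zero_iff] at this
      linarith⟩
  refine ⟨?_, fun i => ?_⟩
  · let B : Matrix (Fin n) (Fin n) ℝ :=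
      Matrix.of fun i k => (A i k - mean (A i)) / Real.sqrt (∑ k, (A i k - mean (A i)) ^ 2)
    have hB : corrMap A = B * Bᴴ := by
      ext i j
      rw [Matrix.mul_apply]
      simp only [corrMap, corr, Matrix.of_apply, B, Matrix.conjTranspose_apply, star_trivial]
      rw [Real.sqrt_mul (hpos i).le, Finset.sum_div]
      refine Finset.sum_congr rfl fun k _ => ?_
      rw [div_mul_div_comm]
    rw [hB]
    exact Matrix.posSemidef_self_mul_conjTranspose B
  · simp only [corrMap, corr, Matrix.of_apply]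
    rw [Real.sqrt_mul_self (hpos i).le]
    simp_rw [← sq]
    exact div_self (hpos i).ne'

/-- One application of the correlation map produces an entry `≤ 1 - 4 / n`. -/
theorem exists_entry_le {n : ℕ} {A : Matrix (Fin n) (Fin n) ℝ} (hA : IsCorrelationMatrix A)
    (hne : A ≠ allOnes n) : ∃ i j, corrMap A i j ≤ 1 - 4 / n := by
  have hex : ∃ p : Fin n × Fin n, A p.1 p.2 ≠ 1 := by
    by_contra hcon
    push Not at hcon
    exact hne (by ext i j; exact hcon (i, j))
  obtain ⟨p0, hp0⟩ := hex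
  obtain ⟨p, -, hp⟩ := Finset.exists_min_image (Finset.univ : Finset (Fin n × Fin n))
    (fun p => A p.1 p.2) ⟨p0, Finset.mem_univ _⟩
  have hlt : A p.1 p.2 < 1 :=
    lt_of_le_of_lt (hp p0 (Finset.mem_univ _)) (lt_of_le_of_ne (entry_le hA _ _) hp0)
  have hij : p.1 ≠ p.2 := by
    intro h
    rw [h, hA.2] at hlt
    exact lt_irrefl _ hlt
  refine ⟨p.1, p.2, ?_⟩
  exact corr_le (A p.1) (A p.2) (A p.1 p.2) hlt p.1 p.2 hij (hA.2 _) rfl (symm hA _ _) (hA.2 _)
    (fun k => ⟨hp (p.1, k) (Finset.mem_univ _), entry_le hA _ _⟩)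
    (fun k => ⟨hp (p.2, k) (Finset.mem_univ _), entry_le hA _ _⟩)

theorem norm_ge {n : ℕ} {A : Matrix (Fin n) (Fin n) ℝ} (h : ∃ i j, A i j ≤ 1 - 4 / n) :
    4 / (n : ℝ) ≤ ‖A - allOnes n‖ := by
  obtain ⟨i, j, hij⟩ := h
  refine le_trans ?_ (Matrix.norm_entry_le_entrywise_sup_norm (A - allOnes n) (i := i) (j := j))
  rw [Matrix.sub_apply, allOnes, Matrix.of_apply, Real.norm_eq_abs]
  have := neg_abs_le (A i j - 1)
  linarith

/-- **No orbit of the correlation map accumulates at the all-ones matrix**, in any dimension.  Let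
`A₀` be an `n × n` correlation matrix other than the all-ones matrix.  Then the orbit `A_k` is defined
for all `k` (every `A_k` is a correlation matrix without constant rows), for every `k ≥ 1` the
matrix `A_k` has an entry `≤ 1 - 4 / n`, and `inf_k ‖A_k - 11ᵀ‖ > 0` (entrywise maximum norm). -/
theorem result : ∀ (n : ℕ) (A₀ : Matrix (Fin n) (Fin n) ℝ), IsCorrelationMatrix A₀ →
    A₀ ≠ allOnes n →
      (∀ k, IsCorrelationMatrix (corrMap^[k] A₀) ∧ ∀ i, ¬ ∃ c, ∀ l, (corrMap^[k] A₀) i l = c) ∧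
      (∀ k, 1 ≤ k → ∃ i j, (corrMap^[k] A₀) i j ≤ 1 - 4 / n) ∧
      0 < ⨅ k : ℕ, ‖(corrMap^[k] A₀) - allOnes n‖ := by
  intro n A₀ hA hne
  have hn : 0 < n := by
    rcases Nat.eq_zero_or_pos n with h | h
    · subst h
      exact absurd (by ext i; exact i.elim0) hne
    · exact h
  have hn' : (0 : ℝ) < n := by exact_mod_cast hn
  have key : ∀ k, IsCorrelationMatrix (corrMap^[k] A₀) ∧ (corrMap^[k] A₀) ≠ allOnes n := by
    intro k
    induction k with
    | zero => exact ⟨hA, hne⟩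
    | succ k ih =>
      rw [Function.iterate_succ_apply']
      refine ⟨corrMap_isCorrelation ih.1 ih.2, fun h => ?_⟩
      obtain ⟨i, j, hij⟩ := exists_entry_le ih.1 ih.2
      rw [h, allOnes, Matrix.of_apply] at hij
      have : 0 < 4 / (n : ℝ) := by positivity
      linarith
  have hent : ∀ k, 1 ≤ k → ∃ i j, (corrMap^[k] A₀) i j ≤ 1 - 4 / n := by
    intro k hk
    obtain ⟨l, rfl⟩ : ∃ l, k = l + 1 := ⟨k - 1, by omega⟩
    rw [Function.iterate_succ_apply']
    exact exists_entry_le (key l).1 (key l).2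
  refine ⟨fun k => ⟨(key k).1, row_nonconst (key k).1 (key k).2⟩, hent, ?_⟩
  have h0 : 0 < ‖A₀ - allOnes n‖ := norm_pos_iff.2 (sub_ne_zero.2 hne)
  have hlow : ∀ k, min ‖A₀ - allOnes n‖ (4 / n) ≤ ‖(corrMap^[k] A₀) - allOnes n‖ := by
    intro k
    rcases Nat.eq_zero_or_pos k with h | h
    · subst h; exact min_le_left _ _
    · exact le_trans (min_le_right _ _) (norm_ge (hent k h))
  exact lt_of_lt_of_le (lt_min h0 (by positivity)) (le_ciInf hlow)

end Pool.Agent.Results.MP_3f07b9_an.NoApproach
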